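import Pool.Agent.H25.CBase

set_option autoImplicit false

namespace Pool.Agent.Results.MP_cb9cb0_lc.Hard
open Finset Pool.Agent.H11.PT Pool.Agent.H25.CB

/-- submodular pseudo-Boolean functions -/
def Submod {V : Type} (f : (V → Bool) → ℚ) : Prop := ∀ x y, f (x ⊓ y) + f (x ⊔ y) ≤ f x + f y

/-- `f` is expressible by binary submodular functions `g j` (`j ∈ R`) with the auxiliary
variables `M` -/
def Expr {V : Type} (f : (V → Bool) → ℚ) : Prop :=
  ∃ (M R : Type) (_ : Fintype M) (_ : Fintype R) (g : R → Bool → Bool → ℚ) (z z' : R → V ⊕ M),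
    (∀ j, g j false false + g j true true ≤ g j false true + g j true false) ∧
    ∀ x, IsLeast (Set.range fun y : M → Bool =>
      ∑ j, g j (Sum.elim x y (z j)) (Sum.elim x y (z' j))) (f x)

/-- a rational number: sign, numerator and denominator in binary -/
abbrev Co := Bool × List Bool × List Bool

def val (c : Co) : ℚ := (if c.1 then -1 else 1) * bin c.2.1 / bin c.2.2

/-- number of variables and the list of monomials with their coefficients -/
abbrev Inst := ℕ × List (List ℕ × Co)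

/-- the function defined by the polynomial -/
def ev (p : Inst) (x : Fin p.1 → Bool) : ℚ :=
  (p.2.map fun t => if ∀ i : Fin p.1, i.val ∈ t.1 → x i = true then val t.2 else 0).sum

/-- the promise: a list of nonzero coefficients of a submodular polynomial of degree 4 -/
def Valid (p : Inst) : Prop :=
  (p.2.map Prod.fst).Nodup ∧
    (∀ t ∈ p.2, t.1.Pairwise (· < ·) ∧ (∀ i ∈ t.1, i < p.1) ∧ val t.2 ≠ 0 ∧ t.1.length ≤ 4) ∧
    (∃ t ∈ p.2, t.1.length = 4) ∧ Submod (ev p)

variable {V : Type}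

theorem Expr.add {f h : (V → Bool) → ℚ} (a : Expr f) (b : Expr h) : Expr fun x => f x + h x := by
  obtain ⟨M, R, _, _, g, z, z', a1, a2⟩ := a
  obtain ⟨M', R', _, _, g', w, w', b1, b2⟩ := b
  have e1 : ∀ (x : V → Bool) (y : M ⊕ M' → Bool) s,
      Sum.elim x y (Sum.map id .inl s) = Sum.elim x (y ∘ .inl) s := fun x y s => by cases s <;> rfl
  have e2 : ∀ (x : V → Bool) (y : M ⊕ M' → Bool) s,
      Sum.elim x y (Sum.map id .inr s) = Sum.elim x (y ∘ .inr) s := fun x y s => by cases s <;> rfl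
  refine ⟨M ⊕ M', R ⊕ R', inferInstance, inferInstance, Sum.elim g g',
    Sum.elim (fun j => (z j).map id .inl) fun j => (w j).map id .inr,
    Sum.elim (fun j => (z' j).map id .inl) fun j => (w' j).map id .inr,
    fun j => by cases j <;> simp [a1, b1], fun x => ⟨?_, ?_⟩⟩
  · obtain ⟨y, e⟩ := (a2 x).1
    obtain ⟨y', e'⟩ := (b2 x).1
    refine ⟨Sum.elim y y', ?_⟩
    simp only [Fintype.sum_sum_type, Sum.elim_inl, Sum.elim_inr, e1, e2, Sum.elim_comp_inl,
      Sum.elim_comp_inr, ← e, ← e']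
  · rintro _ ⟨y, rfl⟩
    simp only [Fintype.sum_sum_type, Sum.elim_inl, Sum.elim_inr, e1, e2]
    exact add_le_add ((a2 x).2 ⟨_, rfl⟩) ((b2 x).2 ⟨_, rfl⟩)

theorem Expr.of_eq {f h : (V → Bool) → ℚ} (a : Expr f) (e : ∀ x, h x = f x) : Expr h :=
  funext e ▸ a

theorem Expr.const (c : ℚ) : Expr fun _ : V → Bool => c :=
  ⟨Unit, Unit, inferInstance, inferInstance, fun _ _ _ => c, fun _ => .inr (), fun _ => .inr (),
    by simp, by simp⟩

theorem Expr.sum {ι : Type} (s : Finset ι) {f : ι → (V → Bool) → ℚ} (h : ∀ i ∈ s, Expr (f i)) :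
    Expr fun x => ∑ i ∈ s, f i x := by
  classical
  induction s using Finset.induction with
  | empty => exact .const 0
  | insert a s b ih =>
    exact ((h a (by simp)).add (ih fun i c => h i (by simp [c]))).of_eq fun x => sum_insert b

theorem Expr.var (v : V) (c : ℚ) : Expr fun x : V → Bool => c * (x v).toNat :=
  ⟨Unit, Unit, inferInstance, inferInstance, fun _ u _ => c * u.toNat, fun _ => .inl v,
    fun _ => .inl v, by simp, by simp⟩

theorem Expr.mm {f : (V → Bool) → ℚ} (h : Expr f) {k : ℕ} (F : (Fin k → Bool) → Fin k → Bool)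
    (h1 : ∀ a, ∑ i, (F a i).toNat = ∑ i, (a i).toNat)
    (h2 : ∀ a b, ∑ i, (a i && b i).toNat ≤ ∑ i, (F a i && F b i).toNat) (X : Fin k → V → Bool) :
    ∑ i, f (fun v => F (fun r => X r v) i) ≤ ∑ i, f (X i) := by
  obtain ⟨M, R, _, _, g, z, z', a1, a2⟩ := h
  choose Y hY using fun i => (a2 (X i)).1
  refine (sum_le_sum fun i _ => (a2 _).2 ⟨fun m => F (fun r => Y r m) i, rfl⟩).trans ?_
  simp only [← hY]
  rw [sum_comm, sum_comm (s := univ (α := Fin k))]
  refine sum_le_sum fun j _ => ?_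
  have e : ∀ s i, Sum.elim (fun v => F (fun r => X r v) i) (fun m => F (fun r => Y r m) i) s =
      F (fun r => Sum.elim (X r) (Y r) s) i := fun s i => by cases s <;> rfl
  have e' : ∀ u v, g j u v = g j false false + (g j true false - g j false false) * u.toNat +
      (g j false true - g j false false) * v.toNat - (g j false true + g j true false -
        (g j false false + g j true true)) * (u && v).toNat := fun u v => by
    cases u <;> cases v <;> simp <;> ring
  simp only [e]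
  rw [sum_congr rfl fun i _ => e' _ _, sum_congr rfl fun i _ => e' (Sum.elim _ _ _) _]
  simp only [sum_add_distrib, sum_sub_distrib, ← mul_sum, ← Nat.cast_sum, h1]
  exact sub_le_sub_left (mul_le_mul_of_nonneg_left (Nat.cast_le.2 (h2 _ _)) (sub_nonneg.2 (a1 j))) _

theorem Expr.submod {f : (V → Bool) → ℚ} (h : Expr f) : Submod f := fun x y => by
  have := h.mm (fun a : Fin 2 → Bool => ![a 0 ⊓ a 1, a 0 ⊔ a 1]) (by decide) (by decide) ![x, y]
  simp only [Fin.sum_univ_two] at this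
  exact this

variable [Fintype V]

def Lin (l : (V → Bool) → ℕ) : Prop := ∃ w : V → ℕ, ∀ x, l x = ∑ v, w v * (x v).toNat

theorem Lin.add {l l' : (V → Bool) → ℕ} (a : Lin l) (b : Lin l') : Lin fun x => l x + l' x := by
  obtain ⟨w, a⟩ := a
  obtain ⟨w', b⟩ := b
  exact ⟨w + w', fun x => by simp [a, b, add_mul, sum_add_distrib]⟩

theorem Lin.mul {l : (V → Bool) → ℕ} (c : ℕ) (a : Lin l) : Lin fun x => c * l x := by
  obtain ⟨w, a⟩ := a
  exact ⟨fun v => c * w v, fun x => by simp [a, mul_sum, mul_assoc]⟩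

theorem Lin.sum (N : ℕ) {l : ℕ → (V → Bool) → ℕ} (a : ∀ i, Lin (l i)) :
    Lin fun x => ∑ i ∈ range N, l i x := by
  choose w a using a
  exact ⟨fun v => ∑ i ∈ range N, w i v, fun x => by simp only [a, sum_mul]; exact sum_comm⟩

theorem Lin.thr {l : (V → Bool) → ℕ} (a : Lin l) {c : ℚ} (hc : 0 ≤ c) (b : ℚ) :
    Expr fun x => c * min 0 (b - l x) := by
  obtain ⟨w, a⟩ := a
  refine ⟨Unit, Option V, inferInstance, inferInstance,
    fun j u t => if t then j.elim (c * b) fun v => -(c * (w v * u.toNat)) else 0,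
    fun j => j.elim (.inr ()) .inl, fun _ => .inr (), fun j => ?_, fun x => ?_⟩
  · cases j <;> simp
    positivity
  have e : ∀ y : Unit → Bool, (∑ j : Option V, if Sum.elim x y (.inr ()) = true then
      j.elim (c * b) fun v => -(c * (w v * (Sum.elim x y (j.elim (.inr ()) .inl)).toNat)) else 0) =
      if y () then c * (b - l x) else 0 := fun y => by
    cases h : y () <;> simp [h, a, mul_add, mul_sum, sub_eq_add_neg]
  simp only [e]
  refine ⟨?_, ?_⟩
  · rcases le_total 0 (b - l x) with h | h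
    · exact ⟨fun _ => false, by simp [min_eq_left h]⟩
    · exact ⟨fun _ => true, by simp [min_eq_right h]⟩
  · rintro _ ⟨y, rfl⟩
    dsimp only
    split_ifs
    · exact mul_le_mul_of_nonneg_left (min_le_right _ _) hc
    · exact mul_nonpos_of_nonneg_of_nonpos hc (min_le_left _ _)

theorem Lin.conc {l : (V → Bool) → ℕ} (a : Lin l) (ψ : ℕ → ℚ)
    (h : ∀ t, ψ (t + 2) - 2 * ψ (t + 1) + ψ t ≤ 0) : Expr fun x => ψ (l x) := by
  obtain ⟨w, e⟩ := id a
  have k : ∀ s, ψ (s + 1) = ψ 0 + (s + 1) * (ψ 1 - ψ 0) +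
      ∑ t ∈ range s, (ψ (t + 2) - 2 * ψ (t + 1) + ψ t) * (s - t) ∧ ψ (s + 1) - ψ s = ψ 1 - ψ 0 +
      ∑ t ∈ range s, (ψ (t + 2) - 2 * ψ (t + 1) + ψ t) := fun s => by
    induction s with
    | zero => simp
    | succ s ih =>
      simp only [sum_range_succ, Nat.cast_add, Nat.cast_one, add_sub_right_comm (s : ℚ) 1, mul_add,
        sum_add_distrib (f := fun t : ℕ => (ψ (t + 2) - 2 * ψ (t + 1) + ψ t) * ((s : ℚ) - t)),
        mul_one]
      constructor <;> linarith [ih.1, ih.2]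
  refine (((Expr.const (ψ 0)).add (.sum univ fun v _ => .var v ((ψ 1 - ψ 0) * w v))).add
    (.sum (range (∑ v, w v)) fun t _ => a.thr (neg_nonneg.2 (h t)) (t + 1))).of_eq fun x => ?_
  have b : l x ≤ ∑ v, w v := e x ▸ sum_le_sum fun v _ => by cases x v <;> simp
  have c : ∑ v, (ψ 1 - ψ 0) * w v * (x v).toNat = (ψ 1 - ψ 0) * l x := by
    simp [e, mul_sum, mul_assoc]
  rw [c]
  generalize l x = s at b
  rw [← sum_subset (range_subset_range.2 (show s - 1 ≤ _ by omega)) fun t _ d => by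
    have : (s : ℚ) ≤ t + 1 := by exact_mod_cast (show s ≤ t + 1 by simp at d; omega)
    rw [min_eq_left (by linarith), mul_zero]]
  rcases s with _ | s
  · simp
  rw [(k s).1, Nat.add_sub_cancel, sum_congr rfl fun t d => by
    have : (t : ℚ) < s := by exact_mod_cast mem_range.1 d
    rw [show (ψ (t + 2) - 2 * ψ (t + 1) + ψ t) * ((s : ℚ) - t) = -(ψ (t + 2) - 2 * ψ (t + 1) + ψ t) *
      min 0 ((t : ℚ) + 1 - (s + 1 : ℕ)) by rw [min_eq_right (by push_cast; linarith)]; push_cast; ring]]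
  push_cast; ring

def Φ (D : ℕ → ℚ) : ℕ → ℚ
  | 0 => 0
  | 1 => 0
  | t + 2 => 2 * Φ D (t + 1) - Φ D t + D t

theorem main {l a b : (V → Bool) → ℕ} (hl : Lin l) (ha : Lin a) (hb : Lin b) (a1 : ∀ x, a x ≤ 1)
    (b1 : ∀ x, b x ≤ 1) {Q : (V → Bool) → ℚ} (B : ℚ) (h1 : ∀ x y, l x = l y → Q x = Q y)
    (h2 : ∀ x, -(2 * B) ≤ Q x ∧ Q x ≤ 0) :
    Expr fun x => a x * b x * Q x - B * (2 * l x + a x) ^ 2 - B * (2 * l x + b x) ^ 2 := by
  classical
  obtain ⟨D, d1, d2⟩ : ∃ D : ℕ → ℚ, (∀ t, -(2 * B) ≤ D t ∧ D t ≤ 0) ∧ ∀ x, D (2 * l x) = Q x := by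
    refine ⟨fun t => if h : ∃ x, 2 * l x = t then Q h.choose else Q fun _ => true, fun t => ?_,
      fun x => ?_⟩
    · dsimp only
      split_ifs <;> exact h2 _
    · have : ∃ y, 2 * l y = 2 * l x := ⟨x, rfl⟩
      simp only [dif_pos this]
      exact h1 _ _ (by have := this.choose_spec; omega)
  have c1 : ∀ t, Φ D (t + 2) - 2 * Φ D (t + 1) + Φ D t ≤ 0 := fun t => by
    rw [Φ]; linarith [d1 t]
  have c2 : ∀ t : ℕ, (-Φ D (t + 2) - B * (t + 2 : ℕ) ^ 2) - 2 * (-Φ D (t + 1) - B * (t + 1 : ℕ) ^ 2) +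
      (-Φ D t - B * t ^ 2) ≤ 0 := fun t => by
    rw [Φ]; push_cast; linarith [d1 t]
  refine (((((((hl.mul 2).add ha).add hb).conc _ c1).add ((hl.mul 2).conc _ c1)).add
    (((hl.mul 2).add ha).conc (fun t => -Φ D t - B * t ^ 2) c2)).add
    (((hl.mul 2).add hb).conc (fun t => -Φ D t - B * t ^ 2) c2)).of_eq fun x => ?_
  rw [← d2 x]
  have := a1 x
  have := b1 x
  generalize a x = u at *
  generalize b x = v at *
  interval_cases u <;> interval_cases v <;> simp [Φ] <;> ring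

def nc (s : Bool) (e a : ℕ) : Co := (s, List.replicate e false ++ toBits a, [true])

theorem val_nc (s : Bool) (e a : ℕ) : val (nc s e a) = (if s then -1 else 1) * (2 ^ e * a) := by
  have : ∀ e, bin (List.replicate e false) = 0 := fun e => by
    induction e with
    | zero => rfl
    | succ e ih => simp [bin]
  simp only [val, nc, bin] at this ⊢
  rw [List.map_append, Nat.ofDigits_append, this, ofDigits_toBits]
  cases s <;> simp

abbrev G := ℕ × List (ℕ × ℕ) × ℕ

def red (y : G) : Inst := (y.1 + 4,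
  [([0, 1], nc true 0 (2 * y.1 + 1 + y.2.2)), ([0, 1, 2], nc false 0 (y.1 + 1)),
    ([0, 1, 3], nc false 0 (y.1 + 1)), ([0, 1, 2, 3], nc true 0 (y.1 + 1)),
    ([0, 2], nc true 0 (y.1 + 1)), ([0, 3], nc true 0 (y.1 + 1)), ([1, 2], nc true 0 (y.1 + 1)),
    ([1, 3], nc true 0 (y.1 + 1))] ++ (List.range y.1).flatMap fun i =>
  [([0, 1, i + 4], nc false 0 1), ([0, i + 4], nc true (i + 2) ((y.1 + 1) ^ 3)),
    ([1, i + 4], nc true (i + 2) ((y.1 + 1) ^ 3))] ++ (List.range i).flatMap fun j =>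
  ([j + 4, i + 4], nc true (i + j + 4) ((y.1 + 1) ^ 3)) ::
    if (j, i) ∈ y.2.1 then [([0, 1, j + 4, i + 4], nc true 0 (y.1 + 1))] else [])

@[fun_prop] theorem nc_pt {α : Type} [Enc α] (s : Bool) {e a : α → ℕ} (he : PT e) (ha : PT a) :
    PT fun x => nc s (e x) (a x) := by
  have := ha.toBits
  unfold nc; fun_prop

theorem nd {α : Type} (N : ℕ) (f : ℕ → List α) (key : α → ℕ) (h1 : ∀ i, (f i).Nodup)
    (h2 : ∀ i, ∀ a ∈ f i, key a = i + 4) : ((List.range N).flatMap f).Nodup :=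
  List.nodup_flatMap.2 ⟨fun i _ => h1 i, List.nodup_range.imp fun e a b c =>
    e (by have := h2 _ _ b; have := h2 _ _ c; omega)⟩

theorem red_nd (y : G) : ((red y).2.map Prod.fst).Nodup := by
  simp only [red, List.map_append, List.map_flatMap]
  refine List.nodup_append.2 ⟨by simp, nd _ _ (·.reverse.getD 0 0) (fun i => List.nodup_append.2
    ⟨by simp, nd _ _ (·.reverse.getD 1 0) (fun j => ?_) fun j => ?_, ?_⟩) fun i => ?_, ?_⟩
  · split_ifs <;> simp
  · split_ifs <;> simp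
  · simp; grind
  · simp; grind
  · simp only [List.forall_mem_flatMap, List.forall_mem_append, List.map_cons, List.map_nil,
      List.forall_mem_cons, apply_ite (List.map _), List.mem_ite_nil_right]
    simp

theorem red_wf (y : G) : ∀ t ∈ (red y).2,
    t.1.Pairwise (· < ·) ∧ (∀ i ∈ t.1, i < (red y).1) ∧ val t.2 ≠ 0 ∧ t.1.length ≤ 4 := by
  have : ∀ s e a, val (nc s e a) = 0 ↔ a = 0 := fun s e a => by cases s <;> simp [val_nc]
  simp only [red, List.forall_mem_append, List.forall_mem_flatMap, List.forall_mem_cons,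
    List.mem_range]
  refine ⟨by simp [*], fun i h => ⟨by simp [*], fun j e => ⟨?_, ?_⟩⟩⟩
  · simp [*]; omega
  · split_ifs <;> simp [*]; omega

def ext {n : ℕ} (x : Fin n → Bool) (i : ℕ) : ℕ := if h : i < n then (x ⟨i, h⟩).toNat else 0

theorem ext_le {n : ℕ} (x : Fin n → Bool) (i : ℕ) : ext x i ≤ 1 := by
  unfold ext; split_ifs <;> simp [Bool.toNat_le]

theorem ext_lin (n i : ℕ) : Lin fun x : Fin n → Bool => ext x i :=
  ⟨fun v => if v.val = i then 1 else 0, fun x => by
    unfold ext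
    split_ifs with h
    · rw [sum_eq_single ⟨i, h⟩] <;> simp +contextual [Fin.ext_iff]
    · exact (sum_eq_zero fun v _ => by simp [show v.val ≠ i by omega]).symm⟩

theorem ev_eq (p : Inst) (h : ∀ t ∈ p.2, ∀ i ∈ t.1, i < p.1) (x : Fin p.1 → Bool) :
    ev p x = (p.2.map fun t => val t.2 * (t.1.map fun i => (ext x i : ℚ)).prod).sum := by
  refine congrArg _ (List.map_congr_left fun t ht => ?_)
  split_ifs with c
  · rw [List.prod_eq_one, mul_one]
    simp +contextual [ext, h t ht, c]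
  · push Not at c
    obtain ⟨i, a, b⟩ := c
    rw [List.prod_eq_zero (List.mem_map.2 ⟨i.val, a, by simp [ext, b]⟩), mul_zero]

theorem sum_fm {α : Type} (N : ℕ) (f : ℕ → List α) (g : α → ℚ) :
    (((List.range N).flatMap f).map g).sum = ∑ i ∈ range N, ((f i).map g).sum := by
  induction N with
  | zero => simp
  | succ N ih => simp [List.range_succ, sum_range_succ, ← ih]

def QQ (y : G) (σ : ℕ → ℕ) : ℚ := ∑ i ∈ range y.1, σ (i + 4) + 1 - y.2.2 -
  (y.1 + 1) * (∑ i ∈ range y.1, ∑ j ∈ range i,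
    if (j, i) ∈ y.2.1 then σ (j + 4) * σ (i + 4) else 0 : ℕ)

def ll (N : ℕ) (σ : ℕ → ℕ) : ℕ := ∑ i ∈ range N, 2 ^ i * σ (i + 4)

def β (a b c d : ℚ) : ℚ :=
  -(2 * a * b) + a * b * c + a * b * d - a * b * c * d - a * c - a * d - b * c - b * d

def HH (y : G) (σ : ℕ → ℕ) : ℚ := (y.1 + 1) * β (σ 0) (σ 1) (σ 2) (σ 3) +
  (σ 0 * σ 1 * QQ y σ - (y.1 + 1) ^ 3 * (2 * ll y.1 σ + σ 0) ^ 2 -
    (y.1 + 1) ^ 3 * (2 * ll y.1 σ + σ 1) ^ 2) +
  (y.1 + 1) ^ 3 * (∑ i ∈ range y.1, 8 * 4 ^ i * σ (i + 4) + σ 0 + σ 1 : ℕ)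

theorem ll_sq (N : ℕ) (σ : ℕ → ℕ) (h : ∀ i, σ i ≤ 1) : ll N σ ^ 2 = ∑ i ∈ range N,
    (4 ^ i * σ (i + 4) + ∑ j ∈ range i, 2 ^ (i + j + 1) * (σ (j + 4) * σ (i + 4))) := by
  induction N with
  | zero => simp [ll]
  | succ N ih =>
    have e : ∑ j ∈ range N, 2 ^ (N + j + 1) * (σ (j + 4) * σ (N + 4)) =
        2 * ll N σ * (2 ^ N * σ (N + 4)) := by
      simp only [ll, mul_sum, sum_mul]
      exact sum_congr rfl fun _ _ => by ring
    rw [sum_range_succ, ← ih, e, ll, sum_range_succ, ← ll, show 4 ^ N = (2 ^ N) ^ 2 by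
      rw [← pow_mul, mul_comm, pow_mul]; rfl]
    have := h (N + 4)
    generalize σ (N + 4) = u at *
    interval_cases u <;> ring

theorem ev_red (y : G) (x : Fin (y.1 + 4) → Bool) : ev (red y) x = HH y (ext x) := by
  refine (ev_eq _ (fun t h => (red_wf y t h).2.1) x).trans ?_
  have l := congrArg (Nat.cast (R := ℚ)) (ll_sq y.1 _ (ext_le x))
  have a0 : (ext x 0 : ℚ) ^ 2 = ext x 0 := by
    have := ext_le x 0
    interval_cases ext x 0 <;> simp
  have a1 : (ext x 1 : ℚ) ^ 2 = ext x 1 := by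
    have := ext_le x 1
    interval_cases ext x 1 <;> simp
  change (List.map (fun t => _ * (List.map (fun i => (ext x i : ℚ)) _).prod) _).sum = _
  generalize ext x = σ at *
  simp only [red, List.map_append, List.sum_append, sum_fm, List.map_cons, List.sum_cons,
    apply_ite (List.map _), apply_ite List.sum, val_nc, List.map_nil, List.sum_nil, List.prod_cons,
    List.prod_nil, HH, QQ, β]
  rw [sum_congr rfl fun i _ => show _ = σ 0 * σ 1 * (σ (i + 4) : ℚ) - 4 * (y.1 + 1) ^ 3 *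
    (σ 0 + σ 1) * (2 ^ i * σ (i + 4)) - 8 * (y.1 + 1) ^ 3 * ∑ j ∈ range i, (2 : ℚ) ^ (i + j + 1) *
      (σ (j + 4) * σ (i + 4)) - (y.1 + 1) * σ 0 * σ 1 * ∑ j ∈ range i,
        if (j, i) ∈ y.2.1 then (σ (j + 4) * σ (i + 4) : ℚ) else 0 by
      rw [mul_sum, mul_sum, sub_sub, ← sum_add_distrib, sub_eq_add_neg, ← sum_neg_distrib]
      congr 1
      · simp; ring
      · exact sum_congr rfl fun j _ => by by_cases c : (j, i) ∈ y.2.1 <;> simp [c] <;> ring]
  simp only [ll, mul_assoc 8] at l ⊢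
  push_cast at l ⊢
  simp only [sum_add_distrib, sum_sub_distrib, ← mul_sum] at l ⊢
  linear_combination (y.1 + 1 : ℚ) ^ 3 * (8 * l + a0 + a1)

theorem QQ_bd (y : G) (h : ISV y) (σ : ℕ → ℕ) (e : ∀ i, σ i ≤ 1) :
    -(2 * (y.1 + 1 : ℚ) ^ 3) + (y.1 + 1) ≤ QQ y σ ∧ QQ y σ ≤ y.1 + 1 := by
  have a : ∑ i ∈ range y.1, σ (i + 4) ≤ y.1 := (sum_le_card_nsmul _ _ 1 fun _ _ => e _).trans (by simp)
  have b : (∑ i ∈ range y.1, ∑ j ∈ range i, if (j, i) ∈ y.2.1 then σ (j + 4) * σ (i + 4) else 0) ≤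
      y.1 * y.1 := (sum_le_card_nsmul _ _ y.1 fun i c => (sum_le_card_nsmul _ _ 1 fun j _ => by
        split_ifs
        · exact mul_le_one' (e _) (e _)
        · simp).trans (by simpa using (mem_range.1 c).le)).trans (by simp)
  have c := h.1
  unfold QQ
  generalize ∑ i ∈ range y.1, σ (i + 4) = u at *
  generalize (∑ i ∈ range y.1, ∑ j ∈ range i,
    if (j, i) ∈ y.2.1 then σ (j + 4) * σ (i + 4) else 0) = v at *
  qify at a b c
  have : (0 : ℚ) ≤ u := by positivity
  have : (0 : ℚ) ≤ y.2.2 := by positivity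
  have n : (0 : ℚ) ≤ y.1 := by positivity
  have : (0 : ℚ) ≤ (y.1 + 1) * v := by positivity
  have := mul_le_mul_of_nonneg_left b (show (0 : ℚ) ≤ y.1 + 1 by positivity)
  constructor <;> nlinarith [mul_nonneg n n, mul_nonneg n (mul_nonneg n n)]

theorem QQ_congr (y : G) {σ τ : ℕ → ℕ} (e : ∀ i < y.1, σ (i + 4) = τ (i + 4)) :
    QQ y σ = QQ y τ := by
  unfold QQ
  rw [sum_congr rfl fun i h => e i (mem_range.1 h), sum_congr rfl fun i h =>
    sum_congr rfl fun j h' => by rw [e i (mem_range.1 h), e j ((mem_range.1 h').trans (mem_range.1 h))]]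

theorem ll_inj (N : ℕ) {σ τ : ℕ → ℕ} (a : ∀ i, σ i ≤ 1) (b : ∀ i, τ i ≤ 1) (e : ll N σ = ll N τ) :
    ∀ i < N, σ (i + 4) = τ (i + 4) := by
  have k : ∀ σ : ℕ → ℕ, (∀ i, σ i ≤ 1) →
      ll N σ = ∑ i ∈ (range N).filter (fun i => σ (i + 4) = 1), 2 ^ i := fun σ a => by
    rw [sum_filter]
    exact sum_congr rfl fun i _ => by have := a (i + 4); split_ifs <;> simp [*]; omega
  rw [k _ a, k _ b] at e
  intro i h
  have := Finset.ext_iff.1 (Finset.geomSum_injective le_rfl e) i
  have := a (i + 4)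
  have := b (i + 4)
  grind

theorem core (y : G) (c : ℚ) (h : ∀ x : Fin (y.1 + 4) → Bool,
    -(2 * (y.1 + 1 : ℚ) ^ 3) ≤ QQ y (ext x) - c ∧ QQ y (ext x) - c ≤ 0) :
    Expr fun x : Fin (y.1 + 4) → Bool => HH y (ext x) - (y.1 + 1) *
      β (ext x 0) (ext x 1) (ext x 2) (ext x 3) - c * ext x 0 * ext x 1 :=
  ((main (Lin.sum y.1 fun i => (ext_lin _ (i + 4)).mul (2 ^ i)) (ext_lin _ 0) (ext_lin _ 1)
    (fun x => ext_le x 0) (fun x => ext_le x 1) _ (fun a b e => by
      rw [QQ_congr y (ll_inj _ (ext_le a) (ext_le b) e)]) h).add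
    ((((Lin.sum y.1 fun i => (ext_lin _ (i + 4)).mul (8 * 4 ^ i)).add (ext_lin _ 0)).add
      (ext_lin _ 1)).conc (fun t => (y.1 + 1) ^ 3 * t) fun t => by push_cast; linarith)).of_eq
    fun x => by unfold HH ll; ring

theorem red_sub (y : G) (h : ISV y) :
    Submod fun x : Fin (y.1 + 4) → Bool => HH y (ext x) := fun u v => by
  have a := (core y (y.1 + 1) fun x => by
    have := QQ_bd y h _ (ext_le x); constructor <;> linarith).submod u v
  have b : Submod fun x : Fin (y.1 + 4) → Bool =>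
      β (ext x 0) (ext x 1) (ext x 2) (ext x 3) + ext x 0 * ext x 1 := fun u v => by
    simp only [ext, show 0 < y.1 + 4 by omega, show 1 < y.1 + 4 by omega,
      show 2 < y.1 + 4 by omega, show 3 < y.1 + 4 by omega, dif_pos]
    exact (by decide +kernel : ∀ a b c d a' b' c' d' : Bool, β (a ⊓ a').toNat (b ⊓ b').toNat
      (c ⊓ c').toNat (d ⊓ d').toNat + (a ⊓ a').toNat * (b ⊓ b').toNat + (β (a ⊔ a').toNat
      (b ⊔ b').toNat (c ⊔ c').toNat (d ⊔ d').toNat + (a ⊔ a').toNat * (b ⊔ b').toNat) ≤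
      β a.toNat b.toNat c.toNat d.toNat + a.toNat * b.toNat +
        (β a'.toNat b'.toNat c'.toNat d'.toNat + a'.toNat * b'.toNat)) _ _ _ _ _ _ _ _
  linarith [mul_le_mul_of_nonneg_left (b u v) (show (0 : ℚ) ≤ y.1 + 1 by positivity)]

def FF (a : Fin 5 → Bool) (i : Fin 5) : Bool :=
  ([0, 1, 1, 3, 1, 3, 5, 7, 2, 3, 3, 11, 3, 7, 7, 15, 2, 3, 3, 7, 3, 19, 7, 23, 6, 7, 7, 15, 7, 23,
    15, 31].getD (∑ j : Fin 5, 2 ^ j.val * (a j).toNat) 0).testBit i

theorem pos_iff (y : G) (h : ISV y) : IS y ↔ ∃ x : Fin (y.1 + 4) → Bool, 0 < QQ y (ext x) := by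
  constructor
  · rintro ⟨I, a, b, c⟩
    refine ⟨fun v => decide (v.val - 4 ∈ I), ?_⟩
    rw [QQ_congr (τ := fun i => if i - 4 ∈ I then 1 else 0) y fun i e => by
      by_cases d : i ∈ I <;> simp [ext, e, d]]
    have : (range y.1).filter (· ∈ I) = I := by ext i; simpa using a i
    unfold QQ
    rw [sum_eq_zero (s := range y.1) (f := fun i => ∑ j ∈ range i, _) fun i _ =>
      sum_eq_zero fun j _ => by have := c (j, i); grind]
    simp only [Nat.add_sub_cancel, sum_boole, this]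
    qify at b
    simp; linarith
  · rintro ⟨x, e⟩
    have l := ext_le x
    generalize ext x = σ at *
    have s : ∑ i ∈ range y.1, σ (i + 4) = #((range y.1).filter fun i => σ (i + 4) = 1) := by
      rw [card_filter]
      exact sum_congr rfl fun i _ => by have := l (i + 4); split_ifs <;> omega
    have s' := card_filter_le (range y.1) fun i => σ (i + 4) = 1
    unfold QQ at e
    rw [s] at e
    refine ⟨(range y.1).filter fun i => σ (i + 4) = 1, by simp +contextual, ?_, fun t ht c => ?_⟩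
    · have : (0 : ℚ) ≤ (y.1 + 1) * (∑ i ∈ range y.1, ∑ j ∈ range i,
        if (j, i) ∈ y.2.1 then σ (j + 4) * σ (i + 4) else 0 : ℕ) := by positivity
      exact Nat.lt_succ_iff.1 (Nat.cast_lt (α := ℚ).1 (by rw [Nat.cast_succ]; linarith))
    · have : 1 ≤ ∑ i ∈ range y.1, ∑ j ∈ range i,
          if (j, i) ∈ y.2.1 then σ (j + 4) * σ (i + 4) else 0 :=
        le_trans (le_trans (by rw [if_pos ht, (mem_filter.1 c.1).2, (mem_filter.1 c.2).2])
          (single_le_sum (f := fun j => if (j, t.2) ∈ y.2.1 then σ (j + 4) * σ (t.2 + 4) else 0) (fun _ _ => Nat.zero_le _) (mem_range.2 (h.2 t ht).1)))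
          (single_le_sum (f := fun i => ∑ j ∈ range i,
            if (j, i) ∈ y.2.1 then σ (j + 4) * σ (i + 4) else 0) (fun _ _ => Nat.zero_le _)
            (mem_range.2 (h.2 t ht).2))
      rw [card_range] at s'
      generalize (∑ i ∈ range y.1, ∑ j ∈ range i,
          if (j, i) ∈ y.2.1 then σ (j + 4) * σ (i + 4) else 0) = w at *
      generalize #((range y.1).filter fun i => σ (i + 4) = 1) = w' at *
      qify at this s'
      have : (0 : ℚ) ≤ y.2.2 := by positivity
      nlinarith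

theorem red_iff (y : G) (h : ISV y) :
    IS y ↔ ¬ Expr fun x : Fin (y.1 + 4) → Bool => HH y (ext x) := by
  rw [pos_iff y h]
  constructor
  · rintro ⟨x, a⟩ b
    have c := b.mm FF (by decide +kernel) (by decide +kernel) fun r v =>
      if v.val < 4 then Nat.testBit (![3, 5, 6, 9, 10] r) v else x v
    have e : ∀ m : ℕ, ext (fun v : Fin (y.1 + 4) => if v.val < 4 then m.testBit v else x v) =
        fun i => if i < 4 then (m.testBit i).toNat else ext x i := fun m => funext fun i => by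
      unfold ext
      by_cases d : i < 4 <;> simp [d, show i < 4 → i < y.1 + 4 by omega]
    have f : ∀ (b : Bool) i, FF (fun _ => b) i = b := by decide +kernel
    have g : ∀ i : Fin 5, (fun v : Fin (y.1 + 4) => FF (fun r => if v.val < 4 then
        Nat.testBit (![3, 5, 6, 9, 10] r) v else x v) i) = fun v : Fin (y.1 + 4) => if v.val < 4 then
        Nat.testBit (![7, 11, 12, 1, 2] i) v else x v := fun i => funext fun v => by
      by_cases d : v.val < 4
      · simp only [d, if_true]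
        exact (by decide +kernel : ∀ (i : Fin 5), ∀ v < 4, FF (fun r => Nat.testBit
          (![3, 5, 6, 9, 10] r) v) i = Nat.testBit (![7, 11, 12, 1, 2] i) v) i v d
      · simp only [d, if_false, f]
    rw [sum_congr rfl fun i _ => congrArg (fun z => HH y (ext z)) (g i)] at c
    simp only [e, Fin.sum_univ_five, HH, QQ, ll, β, show ∀ i, ¬ i + 4 < 4 by omega,
      if_false, Matrix.cons_val] at a c
    generalize (∑ i ∈ range y.1, ∑ j ∈ range i,
      if (j, i) ∈ y.2.1 then ext x (j + 4) * ext x (i + 4) else 0) = w at *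
    generalize ∑ i ∈ range y.1, ext x (i + 4) = w1 at *
    generalize ∑ i ∈ range y.1, 2 ^ i * ext x (i + 4) = w2 at *
    generalize ∑ i ∈ range y.1, 8 * 4 ^ i * ext x (i + 4) = w3 at *
    norm_num [Nat.testBit_eq_decide_div_mod_eq] at c
    linarith
  · contrapose!
    intro a
    refine ((((core y 0 fun x => ⟨by
      have := QQ_bd y h _ (ext_le x); linarith [show (0 : ℚ) ≤ y.1 by positivity], by
        linarith [a x]⟩).add ((((ext_lin _ 0).add (ext_lin _ 1)).add (ext_lin _ 2)).thr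
        (show (0 : ℚ) ≤ y.1 + 1 by positivity) 1)).add ((((ext_lin _ 0).add (ext_lin _ 1)).add
        (ext_lin _ 3)).thr (show (0 : ℚ) ≤ y.1 + 1 by positivity) 1)).add (((((ext_lin _ 0).add
        (ext_lin _ 1)).add (ext_lin _ 2)).add (ext_lin _ 3)).thr
        (show (0 : ℚ) ≤ y.1 + 1 by positivity) 3)).of_eq fun x => ?_
    have := ext_le x 0
    have := ext_le x 1
    have := ext_le x 2
    have := ext_le x 3
    generalize HH y (ext x) = H
    interval_cases ext x 0 <;> interval_cases ext x 1 <;> interval_cases ext x 2 <;>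
      interval_cases ext x 3 <;> norm_num [β] <;> ring

theorem result (L : List Bool → Prop) (hL : InNP L) : ∃ f : List Bool → Inst,
    PolyTime id bits f ∧ ∀ w, Valid (f w) ∧ (L w ↔ ¬ Expr (ev (f w))) := by
  obtain ⟨f, a, b⟩ := hard_IS.red (Val' := Valid) (Y := fun p => ¬ Expr (ev p)) red
    (by unfold red; fun_prop) (fun y h => ⟨⟨red_nd y, red_wf y,
      ⟨([0, 1, 2, 3], nc true 0 (y.1 + 1)), by simp [red], rfl⟩, funext (ev_red y) ▸ red_sub y h⟩,
      funext (ev_red y) ▸ red_iff y h⟩) L hL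
  exact ⟨f, a.polyTime_raw, b⟩

end Pool.Agent.Results.MP_cb9cb0_lc.Hard
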